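import Pool.Agent.R693.Q.Main

/-!
# Every prime ideal of `U(W)` contains a primitive ideal

Over a field of characteristic zero, every prime ideal `P` of the enveloping algebra of the Witt algebra
contains a primitive ideal; if `P` is nonzero, the primitive ideal can be taken nonzero.

Idea (see `Pool/Agent/R693/Q`, which builds on `Pool/Agent/R693/W` and `Pool/Agent/R693/R`).  Let
`x m = t^m ∂`.
* `P ≠ 0`: let `k + 1` be the minimal number of labels for which `P` contains all values of
  `Δ^N (x (n 0) ⋯ x (n k))` for some `N`, and put `η = Δ^N (x (n 0) ⋯ x (n (k-1)))`, `K = 2 N k`.  Modulo `P`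
  the functions `x m η` of `m` satisfy a linear recurrence of order `K` whose characteristic polynomial is a
  specialisation of `∏ (X - t_s)`, `s = 1, …, K`.  The module `C = F[t^±][α_1, …, α_K]` with
  `x m f = - ∑ t_s^(m-1) α_s f(α + (m-1) e_s)` has a vector `1` satisfying the generic recurrence, and the words
  in `x 0, …, x (K-1)`, sorted, are independent on it over `F[t^±]`; hence `u 1 = 0` in `C` implies
  `u η ∈ P`, and `u ∈ P` by primality.
* For distinct nonzero `λ_1, …, λ_K` the polynomials in `α` with
  `x m q = - ∑ λ_s^(m-1) (α_s q)(α + (m-1) e_s)` form a simple module (the summands can be separated by their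
  generalised eigenvalues; a submodule is an ideal stable under `q ↦ (E_s - 1)^2 (α_s q)`, which lowers
  degrees).  By the linear independence of the shifts, its annihilator kills `1 ∈ C`; so it lies in `P`.  It is
  nonzero by counting dimensions.
* `P = 0`: let `v` be a vector with `x 1 v = v`, `x n v = 0` for `n ≥ 2` in a nonzero module (it exists by the
  Poincaré–Birkhoff–Witt theorem).  For each `d, N` some value of `Δ^N (x (n 0) ⋯ x (n (d-1)))` acts on `v`
  by a nonzero scalar (look at the lexicographically smallest exponent of `Δ^N`), and each nonzero ideal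
  contains all values for some `d, N`.  So every simple quotient of `U(W) v` is faithful.
-/

set_option autoImplicit false

namespace Pool.Agent.Results.MP_f251f6_al.PrimitiveInPrime

open Pool.Agent.R693 Pool.Agent.R693.W

attribute [local instance 100] LieRing.ofAssociativeRing

/-- A two-sided ideal `P` is prime if it is proper and `I J ⊆ P` implies `I ⊆ P` or `J ⊆ P`, for all
two-sided ideals `I`, `J`. -/
def IsPrime {U : Type} [Ring U] (P : TwoSidedIdeal U) : Prop :=
  P ≠ ⊤ ∧ ∀ I J : TwoSidedIdeal U, (∀ a ∈ I, ∀ b ∈ J, a * b ∈ P) → I ≤ P ∨ J ≤ P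

/-- A two-sided ideal `I` is primitive if it is the annihilator of a simple left module. -/
def IsPrimitive {U : Type} [Ring U] (I : TwoSidedIdeal U) : Prop :=
  ∃ (M : Type) (_ : AddCommGroup M) (_ : Module U M), IsSimpleModule U M ∧
    ∀ a : U, a ∈ I ↔ ∀ x : M, a • x = 0

section uea
variable {F : Type} [Field F] {L : Type} [LieRing L] [LieAlgebra F L]

lemma iota_comm (x y : L) : UniversalEnvelopingAlgebra.ι F x * UniversalEnvelopingAlgebra.ι F y -
    UniversalEnvelopingAlgebra.ι F y * UniversalEnvelopingAlgebra.ι F x =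
      UniversalEnvelopingAlgebra.ι F ⁅x, y⁆ := by
  rw [LieHom.map_lie, LieRing.of_associative_ring_bracket]

/-- The universal property. -/
lemma exists_hom (c : Module.Basis ℤ F L)
    (hc : ∀ m n : ℤ, ⁅c m, c n⁆ = ((n - m : ℤ) : F) • c (m + n - 1)) (B : Type) [Ring B]
    [Algebra F B] (y : ℤ → B) (hy : IsW F y) :
    ∃ ψ : UniversalEnvelopingAlgebra F L →ₐ[F] B,
      ∀ n, ψ (UniversalEnvelopingAlgebra.ι F (c n)) = y n := by
  set f : L →ₗ[F] B := c.constr F y with hf
  have hfc : ∀ n, f (c n) = y n := fun n => c.constr_basis F y n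
  have h1 : ∀ x z : L, f ⁅x, z⁆ = f x * f z - f z * f x := by
    intro x z
    have hx : x ∈ Submodule.span F (Set.range c) := by rw [c.span_eq]; trivial
    have hz : z ∈ Submodule.span F (Set.range c) := by rw [c.span_eq]; trivial
    induction hx using Submodule.span_induction with
    | mem x hx =>
      obtain ⟨m, rfl⟩ := hx
      induction hz using Submodule.span_induction with
      | mem z hz =>
        obtain ⟨n, rfl⟩ := hz
        rw [hc, map_smul, hfc, hfc, hfc]
        exact (hy m n (m + n - 1) (by
          have h2 : (Lab.one : ℤ) = 1 := rfl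
          rw [h2]; ring)).symm
      | zero => rw [lie_zero, map_zero, mul_zero, zero_mul, sub_zero]
      | add y z _ _ hy hz =>
        rw [lie_add, map_add, hy, hz, map_add, mul_add, add_mul]
        abel
      | smul a y _ hy =>
        rw [lie_smul, map_smul, hy, map_smul, mul_smul_comm, smul_mul_assoc, smul_sub]
    | zero => rw [zero_lie, map_zero, mul_zero, zero_mul, sub_zero]
    | add y z _ _ hy hz =>
      rw [add_lie, map_add, hy, hz, map_add, mul_add, add_mul]
      abel
    | smul a y _ hy =>
      rw [smul_lie, map_smul, hy, map_smul, mul_smul_comm, smul_mul_assoc, smul_sub]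
  let g : L →ₗ⁅F⁆ B :=
    { f with
      map_lie' := by
        intro x z
        rw [LieRing.of_associative_ring_bracket]
        exact h1 x z }
  refine ⟨UniversalEnvelopingAlgebra.lift F g, fun n => ?_⟩
  rw [UniversalEnvelopingAlgebra.lift_ι_apply]
  exact hfc n

end uea

/-- Let `L` be the Witt algebra over a field of characteristic zero, with basis `e n`, `n ∈ ℤ`, and
bracket `[e m, e n] = (n - m) e (m + n)`.  Every prime ideal `P` of `U(L)` contains a primitive ideal
`I`, and if `P` is nonzero then `I` can be chosen nonzero. -/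
theorem result (F : Type) [Field F] [CharZero F] (L : Type) [LieRing L] [LieAlgebra F L]
    (e : Module.Basis ℤ F L) (he : ∀ m n : ℤ, ⁅e m, e n⁆ = ((n - m : ℤ) : F) • e (m + n))
    (P : TwoSidedIdeal (UniversalEnvelopingAlgebra F L)) (hP : IsPrime P) :
    ∃ I : TwoSidedIdeal (UniversalEnvelopingAlgebra F L),
      IsPrimitive I ∧ I ≤ P ∧ (P ≠ ⊥ → I ≠ ⊥) := by
  classical
  -- the shifted basis
  let eqv : ℤ ≃ ℤ := ⟨fun i => i + 1, fun i => i - 1, fun i => by simp, fun i => by simp⟩
  set c : Module.Basis ℤ F L := e.reindex eqv with hc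
  have hcm : ∀ m, c m = e (m - 1) := fun m => by rw [hc, Module.Basis.reindex_apply]; rfl
  have hcc : ∀ m n : ℤ, ⁅c m, c n⁆ = ((n - m : ℤ) : F) • c (m + n - 1) := by
    intro m n
    rw [hcm, hcm, hcm, he]
    have h1 : m - 1 + (n - 1) = m + n - 1 - 1 := by ring
    rw [h1]
    congr 2
    ring
  set eA : ℤ → UniversalEnvelopingAlgebra F L := fun m => UniversalEnvelopingAlgebra.ι F (c m)
    with heA
  have hW : IsW F eA := by
    intro m n j hmn
    have h2 : (Lab.one : ℤ) = 1 := rfl
    have h3 : ∀ k : ℤ, (Lab.c k : ℤ) = k := fun k => rfl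
    rw [h2] at hmn
    rw [heA]
    beta_reduce
    rw [iota_comm, hcc, map_smul, h3, h3]
    congr 3
    omega
  obtain ⟨β, hβ⟩ := PBW.exists_basis F L ℤ c
  obtain ⟨M, instM1, instM2, hM, hMP, hM0⟩ := Q.main hW (span_of_adjoin (uea_adjoin_basis F c))
    (fun B _ _ y hy => exists_hom c hcc B y hy) β (fun l => hβ l) (P := P) hP
  let I : TwoSidedIdeal (UniversalEnvelopingAlgebra F L) :=
    TwoSidedIdeal.mk' {a | ∀ x : M, a • x = 0}
    (fun x => zero_smul _ x)
    (fun {a b} ha hb x => by rw [add_smul, ha, hb, add_zero])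
    (fun {a} ha x => by rw [neg_smul, ha, neg_zero])
    (fun {a b} hb x => by rw [mul_smul, hb, smul_zero])
    (fun {a b} ha x => by rw [mul_smul]; exact ha _)
  have hI : ∀ a, a ∈ I ↔ ∀ x : M, a • x = 0 := fun a => by
    change a ∈ TwoSidedIdeal.mk' _ _ _ _ _ _ ↔ _
    rw [TwoSidedIdeal.mem_mk']
    rfl
  refine ⟨I, ⟨M, instM1, instM2, hM, hI⟩, fun a ha => hMP a ((hI a).mp ha), fun h0 h => ?_⟩
  obtain ⟨a, ha, ha'⟩ := hM0 h0
  have h1 := (hI a).mpr ha'
  rw [h, TwoSidedIdeal.mem_bot] at h1
  exact ha h1

end Pool.Agent.Results.MP_f251f6_al.PrimitiveInPrime
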